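import Pool.Agent.R270.NB.Asm
import Pool.Agent.R270.NB.A
import Pool.Agent.R270.NB.One
import Pool.Agent.R270.NB.Mid
import Pool.Agent.R270.NB.B
import Pool.Agent.R270.NB.P1
import Pool.Agent.R270.NB.C
import Pool.Agent.R270.NB.D
import Pool.Agent.R270.NB.E
import Pool.Agent.R270.NB.G
import Pool.Agent.R270.NB.H

/-! MP_c30670_an, Q1: true for every `1 ≤ p < ∞`.  For every `ε > 0` there is a `(1+ε)`-basic sequence of nonnegative
functions in `L_p(ℝ)` whose closed linear span contains an isomorphic copy of `L_p(ℝ)`. -/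

namespace Pool.Agent.Results.MP_c30670_an.NearlyMonotone
open Finset MeasureTheory Filter Topology Pool.Agent.R270.NB
open scoped ENNReal

/-- For every `1 ≤ p < ∞` and `ε > 0` there is a sequence of nonzero nonnegative functions in `L_p(ℝ)` which is a Schauder
basis of its closed linear span with basis constant at most `1 + ε` (unique expansions, partial sums of norm at most
`(1 + ε) ‖x‖`), and there is a bounded linear map `T` of `L_p(ℝ)` into this closed span with `‖g‖ ≤ ‖T g‖` for all `g`. -/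
theorem result (p : ℝ≥0∞) [Fact (1 ≤ p)] (hp : p ≠ ∞) (ε : ℝ) (hε : 0 < ε) :
    ∃ f : ℕ → Lp ℝ p (volume : Measure ℝ), (∀ n, 0 ≤ f n) ∧ (∀ n, f n ≠ 0) ∧
      (∀ x ∈ (Submodule.span ℝ (Set.range f)).topologicalClosure,
        ∃! a : ℕ → ℝ, Tendsto (fun N => ∑ n ∈ range N, a n • f n) atTop (𝓝 x)) ∧
      (∀ x ∈ (Submodule.span ℝ (Set.range f)).topologicalClosure, ∀ a : ℕ → ℝ,
        Tendsto (fun N => ∑ n ∈ range N, a n • f n) atTop (𝓝 x) →
        ∀ N, ‖∑ n ∈ range N, a n • f n‖ ≤ (1 + ε) * ‖x‖) ∧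
      ∃ T : Lp ℝ p (volume : Measure ℝ) →L[ℝ] Lp ℝ p (volume : Measure ℝ), (∀ g, ‖g‖ ≤ ‖T g‖) ∧
        ∀ g, T g ∈ (Submodule.span ℝ (Set.range f)).topologicalClosure :=
  assembly stmA (stmB stmOne stmMid) stmP1 stmC stmD stmE stmG stmH p hp ε hε

end Pool.Agent.Results.MP_c30670_an.NearlyMonotone
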